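import Pool.Agent.H67.Mix

namespace Pool.Agent.Results.MP_892d82_al.Mixable

open Pool.Agent.H67.Mix

theorem result (G : Type) [Group G] [Fintype G]
    (hG : ∀ N : Subgroup G, N.Normal → Odd N.index → N = ⊤) :
    ∃ (k : ℕ) (g : Fin k → G) (p : Fin k → ℝ), (∀ i, 0 ≤ p i ∧ p i ≤ 1) ∧
      (List.ofFn fun i => (MonoidAlgebra.single 1 (1 - (p i : ℂ)) +
          MonoidAlgebra.single (g i) (p i : ℂ) : MonoidAlgebra ℂ G)).prod
        = ∑ x : G, MonoidAlgebra.single x ((Fintype.card G : ℂ)⁻¹) := by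
  obtain ⟨l, hl, h⟩ := mixR hG
  refine ⟨l.length, fun i => (l.get i).2, fun i => (l.get i).1,
    fun i => hl _ (List.get_mem l i), ?_⟩
  have h1 := congrArg (MonoidAlgebra.mapRingHom G (algebraMap ℝ ℂ)) h
  rw [pr, map_list_prod, List.map_map, Finset.smul_sum, map_sum] at h1
  refine Eq.trans (congrArg List.prod ?_) (h1.trans (Finset.sum_congr rfl fun x _ => by simp))
  conv_rhs => rw [← List.ofFn_get (l := l), List.map_ofFn]
  congr 1
  funext i
  simp [fac, MonoidAlgebra.one_def]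

end Pool.Agent.Results.MP_892d82_al.Mixable
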